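import Pool.Agent.Q124.MS.Core
import Pool.Agent.TH676.Blk.Main

set_option autoImplicit false
set_option linter.unusedSectionVars false

/-! # Cographic tangential 2-blocks are minimal counterexamples -/

namespace Pool.Agent.Q124.MS

open Finset Pool.Agent.TH462.T4 Pool.Agent.TH676.T4 Pool.Agent.TH676.Blk

variable {V E : Type} [Fintype V] [DecidableEq V] [Fintype E] [DecidableEq E]
variable {src dst : E → V} {n : ℕ} {vec : E → Fin n → ZMod 2}

/-- the flow given by a linear map to the plane -/
def flowL (L : (Fin n → ZMod 2) →ₗ[ZMod 2] (Fin 2 → ZMod 2)) (vec : E → Fin n → ZMod 2)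
    (e : E) : K4 := (L (vec e) 0, L (vec e) 1)

theorem bd_flowL (hv : RepCo src dst vec) (L : (Fin n → ZMod 2) →ₗ[ZMod 2] (Fin 2 → ZMod 2))
    (v : V) : bd src dst (flowL L vec) v = 0 := by
  have h0 : ∑ e, TH676.Blk.star src dst v e • vec e = 0 :=
    (hv _).mpr (Submodule.subset_span ⟨v, rfl⟩)
  have h1 : ∑ e, TH676.Blk.star src dst v e • L (vec e) = 0 := by
    have := congrArg L h0
    rw [map_sum, map_zero] at this
    simpa only [map_smul] using this
  have h2 := congrFun h1 0
  have h3 := congrFun h1 1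
  rw [Finset.sum_apply] at h2 h3
  refine Prod.ext ?_ ?_
  · refine Eq.trans (TH676.Blk.dv_fst src dst (flowL L vec) v) (Eq.trans ?_ h2)
    exact sum_congr rfl fun e _ => mul_comm _ _
  · refine Eq.trans (TH676.Blk.dv_snd src dst (flowL L vec) v) (Eq.trans ?_ h3)
    exact sum_congr rfl fun e _ => mul_comm _ _

theorem flowL_ne {L : (Fin n → ZMod 2) →ₗ[ZMod 2] (Fin 2 → ZMod 2)} {e : E}
    (h : L (vec e) ≠ 0) : flowL L vec e ≠ 0 := by
  intro h0
  apply h
  funext i
  fin_cases i
  · exact congrArg Prod.fst h0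
  · exact congrArg Prod.snd h0

theorem flowL_zero {L : (Fin n → ZMod 2) →ₗ[ZMod 2] (Fin 2 → ZMod 2)} {e : E}
    (h : L (vec e) = 0) : flowL L vec e = 0 := by
  unfold flowL
  rw [h]
  rfl

/-- a vector outside the deleted ones is not spanned by them if there is no bridge -/
theorem not_span (hv : RepCo src dst vec) {D C : Finset E} (hB : Br src dst D C) {e1 : E}
    (h1 : e1 ∉ D) (h2 : e1 ∉ C) (hDC : Disjoint D C) :
    vec e1 ∉ Submodule.span (ZMod 2) (vec '' (D : Set E)) := by
  intro hmem
  obtain ⟨c, hc⟩ := (Submodule.mem_span_image_finset_iff_exists_fun' (ZMod 2)).mp hmem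
  have hx : ∑ e, (if e = e1 then 1 else if e ∈ D then c e else 0 : ZMod 2) • vec e = 0 := by
    rw [← add_sum_erase _ _ (mem_univ e1), if_pos rfl, one_smul]
    have h3 : ∑ e ∈ univ.erase e1, (if e = e1 then 1 else if e ∈ D then c e else 0 : ZMod 2) • vec e
        = ∑ e ∈ D, c e • vec e := by
      refine (sum_subset_zero_on_sdiff ?_ ?_ ?_).symm
      · intro e he
        exact mem_erase.mpr ⟨fun h => h1 (h ▸ he), mem_univ _⟩
      · intro e he
        rw [mem_sdiff, mem_erase] at he
        rw [if_neg he.1.1, if_neg he.2, zero_smul]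
      · intro e he
        have hne : e ≠ e1 := by
          rintro rfl
          exact h1 he
        rw [if_neg hne, if_pos he]
    rw [h3, hc]
    funext i
    exact CharTwo.add_self_eq_zero _
  obtain ⟨Y, hY⟩ := TH676.Blk.mem_cutspace src dst _ ((hv _).mp hx)
  have hcr : ∀ e, e ∈ crs src dst Y ↔ e ∈ TH499.TF.dlt src dst Y := fun e => Iff.rfl
  refine hB Y ?_ ?_
  · rw [disjoint_left]
    intro e he heC
    have h3 := hY e
    have hne : e ≠ e1 := by
      rintro rfl
      exact h2 heC
    rw [if_pos ((hcr e).mp he), if_neg hne, if_neg (fun h => disjoint_left.mp hDC h heC)] at h3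
    exact absurd h3 (by decide)
  · have : crs src dst Y \ D = {e1} := by
      ext e
      rw [mem_sdiff, mem_singleton, hcr]
      constructor
      · rintro ⟨h3, h4⟩
        by_contra hne
        have h5 := hY e
        rw [if_pos h3, if_neg hne, if_neg h4] at h5
        exact absurd h5 (by decide)
      · rintro rfl
        refine ⟨?_, h1⟩
        by_contra h3
        have h5 := hY e
        rw [if_neg h3, if_pos rfl] at h5
        exact absurd h5 (by decide)
    rw [this, card_singleton]

/-- the conditions of a tangential 2-block, for a family of vectors -/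
structure Tan (vec : E → Fin n → ZMod 2) : Prop where
  inj : Function.Injective vec
  ne : ∀ e, vec e ≠ 0
  blk : ¬ ∃ L : (Fin n → ZMod 2) →ₗ[ZMod 2] (Fin 2 → ZMod 2), ∀ e, L (vec e) ≠ 0
  min : ∀ (D T : Finset E), T ≠ univ → (∀ e ∈ T, vec e ∉ Submodule.span (ZMod 2) (vec '' (D : Set E))) →
    ∃ L : (Fin n → ZMod 2) →ₗ[ZMod 2] (Fin 2 → ZMod 2),
      (∀ e ∈ D, L (vec e) = 0) ∧ ∀ e ∈ T, L (vec e) ≠ 0

theorem Tan.minCx (hT : Tan vec) (hv : RepCo src dst vec) : MinCx src dst where
  br := br_iff.mpr (hv.br hT.ne)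
  nf := fun h => hT.blk (hv.map (flow_iff.mp h))
  crit := by
    rintro D C hDC ⟨e0, he0, _⟩ hB
    obtain ⟨L, h1, h2⟩ := hT.min D (univ \ (D ∪ C))
      (fun h => by
        have : e0 ∈ univ \ (D ∪ C) := by rw [h]; exact mem_univ _
        exact (mem_sdiff.mp this).2 he0)
      (fun e he => by
        rw [mem_sdiff, mem_union, not_or] at he
        exact not_span hv hB he.2.1 he.2.2 hDC)
    refine ⟨flowL L vec, bd_flowL hv L, fun e he => flowL_zero (h1 e he), fun e he1 he2 => ?_⟩
    exact flowL_ne (h2 e (by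
      rw [mem_sdiff, mem_union, not_or]
      exact ⟨mem_univ _, he1, he2⟩))

/-- there are no loops -/
theorem Tan.loopless (hT : Tan vec) (hv : RepCo src dst vec) (e : E) : src e ≠ dst e := by
  intro hl
  obtain ⟨L, _, h2⟩ := hT.min ∅ (univ.erase e)
    (fun h => by
      have : e ∈ univ.erase e := by rw [h]; exact mem_univ _
      exact notMem_erase e univ this)
    (fun e' _ => by
      simp only [coe_empty, Set.image_empty, Submodule.span_empty, Submodule.mem_bot]
      exact hT.ne e')
  refine (hT.minCx hv).nf ⟨fun e' => if e' = e then (1, 0) else flowL L vec e', fun v => ?_,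
    fun e' he' => absurd he' (notMem_empty _), fun e' _ _ => ?_⟩
  · rw [← bd_flowL hv L v]
    refine bd_congr src dst _ _ (fun e' he' => ?_) v
    have hne : e' ≠ e := by
      rintro rfl
      exact he' hl
    exact if_neg hne
  · change (if e' = e then ((1, 0) : K4) else flowL L vec e') ≠ 0
    by_cases h : e' = e
    · rw [if_pos h]; decide
    · rw [if_neg h]
      exact flowL_ne (h2 e' (mem_erase.mpr ⟨h, mem_univ _⟩))

end Pool.Agent.Q124.MS
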