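import Pool.Agent.Q124.MS.Sep
import Pool.Agent.TH395.P5.Blk5
import Pool.Agent.TH362.TF.Main
import Pool.Agent.TH362.TF.Contr
import Pool.Agent.TH362.TF.Cyc

set_option autoImplicit false
set_option linter.unusedSectionVars false

/-! # Properties of minimal counterexamples -/

namespace Pool.Agent.Q124.MS

open Finset Pool.Agent.TH462.T4 Pool.Agent.TH676.T4 Pool.Agent.TH395.P5

variable {V E : Type} [Fintype V] [DecidableEq V] [Fintype E] [DecidableEq E]
variable {src dst : E → V}

theorem br_iff : Br src dst ∅ ∅ ↔ ∀ Y : Finset V, (TH499.TF.dlt src dst Y).card ≠ 1 := by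
  constructor
  · intro h Y
    have := h Y (disjoint_empty_right _)
    rw [sdiff_empty] at this
    exact this
  · intro h Y _
    rw [sdiff_empty]
    exact h Y

theorem flow_iff : FlowOn src dst ∅ ∅ ↔ TH499.TF.NZ src dst := by
  constructor
  · rintro ⟨f, h1, _, h3⟩
    exact ⟨f, fun e => h3 e (notMem_empty _) (notMem_empty _), fun x => h1 x⟩
  · rintro ⟨f, h1, h2⟩
    exact ⟨f, fun x => h2 x, fun e he => absurd he (notMem_empty _), fun e _ _ => h1 e⟩

/-- graphs without Petersen minors are closed under deletions and contractions -/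
theorem mc_noPM : MC (V := V) (E := E) (fun s d => ¬ TH499.TF.PM s d) where
  del := fun _ _ _ h _ h2 => h h2.of_lp
  con := fun _ _ _ h hne h2 => h (TH499.TF.PM.of_phi hne (Or.inl ⟨rfl, rfl⟩) h2)

/-- every counterexample gives a minimal one in the class -/
theorem exists_core {Cl : (E → V) → (E → V) → Prop} (hCl : MC Cl) (h1 : Cl src dst)
    (h2 : ∀ Y : Finset V, (TH499.TF.dlt src dst Y).card ≠ 1) (h3 : ¬ TH499.TF.NZ src dst)
    (h4 : ¬ TH499.TF.PM src dst) :
    ∃ s d : E → V, Cl s d ∧ MinCx s d ∧ ¬ TH499.TF.PM s d := by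
  obtain ⟨s, d, ⟨a, b⟩, c⟩ := exists_minCx (TH676.T4.MC.and hCl mc_noPM) src dst ⟨h1, h4⟩
    (br_iff.mpr h2) (fun h => h3 (flow_iff.mp h))
  exact ⟨s, d, a, c, b⟩

theorem pm_of_pet (h : PetMinor src dst) : TH499.TF.PM src dst := by
  obtain ⟨B, b1, b2, b3⟩ := h
  refine ⟨fun s => B (TH443.P5.bt s.1), ?_, ?_, ?_⟩
  · intro s A hA hAn hAne
    obtain ⟨e, he⟩ := (b1 (TH443.P5.bt s.1)).2 A hA hAn hAne
    rcases he with ⟨h3, h4⟩ | ⟨h3, h4⟩
    · exact ⟨e, src e, dst e, h3, (mem_sdiff.mp h4).1, (mem_sdiff.mp h4).2, Or.inl ⟨rfl, rfl⟩⟩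
    · exact ⟨e, dst e, src e, h4, (mem_sdiff.mp h3).1, (mem_sdiff.mp h3).2, Or.inr ⟨rfl, rfl⟩⟩
  · intro s t hst
    apply b2
    intro h5
    exact hst (Subtype.ext (TH443.P5.bt_inj s.1 (TH443.P5.mem_psc s.2) t.1
      (TH443.P5.mem_psc t.2) h5))
  · intro s t hst
    rcases TH443.P5.bt_adj s.1 (TH443.P5.mem_psc s.2) t.1 (TH443.P5.mem_psc t.2) hst with h4 | h4
    · obtain ⟨e, he⟩ := b3 _ h4
      rcases he with ⟨h5, h6⟩ | ⟨h5, h6⟩
      · exact ⟨e, src e, dst e, h5, h6, Or.inl ⟨rfl, rfl⟩⟩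
      · exact ⟨e, dst e, src e, h6, h5, Or.inr ⟨rfl, rfl⟩⟩
    · obtain ⟨e, he⟩ := b3 _ h4
      rcases he with ⟨h5, h6⟩ | ⟨h5, h6⟩
      · exact ⟨e, dst e, src e, h6, h5, Or.inr ⟨rfl, rfl⟩⟩
      · exact ⟨e, src e, dst e, h5, h6, Or.inl ⟨rfl, rfl⟩⟩

/-! ### Explorations -/

/-- the numbers of vertices and roots of the states -/
def small (q : QS) : Bool :=
  Nat.ble q.n 14 && ((Nat.ble 5 q.rt.length || Nat.ble q.n 10) &&
    ((Nat.ble 4 q.rt.length || Nat.ble q.n 4) && ((Nat.ble 3 q.rt.length || Nat.ble q.n 2) &&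
      decide ((q.rt.map Prod.fst).Nodup))))

theorem tbl_small : (tbl.all small) = true := by decide +kernel

open Classical in
/-- the vertices of `P` with a neighbour outside `P` -/
noncomputable def bdy (src dst : E → V) (P : Finset V) : Finset V :=
  P.filter (fun x => ∃ e y, JV src dst e x y ∧ y ≠ x ∧ y ∉ P)

theorem mem_bdy {P : Finset V} {x : V} :
    x ∈ bdy src dst P ↔ x ∈ P ∧ ∃ e y, JV src dst e x y ∧ y ≠ x ∧ y ∉ P := by
  classical
  unfold bdy
  simp only [mem_filter]

open Classical in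
/-- the isolated vertices -/
noncomputable def iso (src dst : E → V) : Finset V := univ.filter (fun x => ¬ Nis src dst x)

theorem mem_iso {x : V} : x ∈ iso src dst ↔ ¬ Nis src dst x := by
  unfold iso
  simp only [mem_filter, mem_univ, true_and]

theorem nis_of_JV {e : E} {x y : V} (h : JV src dst e x y) (hne : x ≠ y) :
    Nis src dst x ∧ Nis src dst y := by
  rcases h with ⟨h1, h2⟩ | ⟨h1, h2⟩
  · exact ⟨⟨e, by rw [h1, h2]; exact hne, Or.inl h1⟩, ⟨e, by rw [h1, h2]; exact hne, Or.inr h2⟩⟩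
  · exact ⟨⟨e, by rw [h1, h2]; exact hne.symm, Or.inr h2⟩,
      ⟨e, by rw [h1, h2]; exact hne.symm, Or.inl h1⟩⟩

theorem bdy_iso {P : Finset V} :
    Pool.Agent.TH497.PW.bd src dst (iso src dst ∪ P) = bdy src dst P := by
  ext x
  rw [Pool.Agent.TH497.PW.mem_bd, mem_bdy, mem_union, mem_iso]
  constructor
  · rintro ⟨h1, h2⟩
    unfold Pool.Agent.TH497.PW.Cpt at h2
    push Not at h2
    obtain ⟨e, he, hx, hn⟩ := h2
    have nx : Nis src dst x := ⟨e, he, hx⟩
    have hxP : x ∈ P := h1.resolve_left (fun h => h nx)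
    refine ⟨hxP, e, ?_⟩
    rcases hx with hx | hx
    · refine ⟨dst e, Or.inl ⟨hx, rfl⟩, fun h => he (hx.trans h.symm), fun hd => ?_⟩
      exact hn (by rw [hx]; exact mem_union_right _ hxP) (mem_union_right _ hd)
    · refine ⟨src e, Or.inr ⟨rfl, hx⟩, fun h => he (h.trans hx.symm), fun hd => ?_⟩
      exact hn (mem_union_right _ hd) (by rw [hx]; exact mem_union_right _ hxP)
  · rintro ⟨h1, e, y, hj, hne, hy⟩
    refine ⟨Or.inr h1, fun hc => ?_⟩
    obtain ⟨nx, ny⟩ := nis_of_JV hj hne.symm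
    have hyn : y ∉ iso src dst ∪ P := by
      rw [mem_union, mem_iso]
      rintro (h | h)
      · exact h ny
      · exact hy h
    rcases hj with ⟨h3, h4⟩ | ⟨h3, h4⟩
    · exact hyn (h4 ▸ (hc e (by rw [h3, h4]; exact hne.symm) (Or.inl h3)).2)
    · exact hyn (h3 ▸ (hc e (by rw [h3, h4]; exact hne) (Or.inr h4)).1)

/-- explored sets: the vertices are added one by one, and at each time at most five of them have
neighbours outside -/
inductive Expl (src dst : E → V) : Finset V → Prop
  | nil : Expl src dst ∅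
  | add (P : Finset V) (v : V) : Expl src dst P → v ∉ P → Nis src dst v →
      (bdy src dst (insert v P)).card ≤ 5 → Expl src dst (insert v P)

theorem Expl.nis {P : Finset V} (h : Expl src dst P) : ∀ x ∈ P, Nis src dst x := by
  induction h with
  | nil => intro x hx; exact absurd hx (notMem_empty _)
  | add P v _ _ hn _ ih =>
    intro x hx
    rcases mem_insert.mp hx with h | h
    · rw [h]; exact hn
    · exact ih x h

theorem Expl.good (hM : MinCx src dst) (hp : ¬ PetMinor src dst) {P : Finset V}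
    (h : Expl src dst P) : TH599.P5.MAIN.GoodP tbl src dst (iso src dst ∪ P) := by
  induction h with
  | nil =>
    obtain ⟨q0, hq0, hn0, ho0, hr0⟩ := tbl_zero
    have hV : Nonempty V := by
      by_contra hV
      rw [not_nonempty_iff] at hV
      exact hM.nf (TH599.P5.MAIN.flow_loops fun e => (hV.false (src e)).elim)
    obtain ⟨v0⟩ := hV
    refine ⟨q0, hq0, fun _ => v0, ?_, ?_⟩
    · rw [hn0, ho0, hr0]
      refine ⟨?_, ?_, ?_, ?_, ?_, ?_, ?_, ?_⟩
      · intro i j hi; exact absurd hi (Nat.not_lt_zero _)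
      · intro p hp; exact absurd hp (by simp [edOf])
      · intro p hp; exact absurd hp (by simp [edOf])
      · intro i j _ hj; exact absurd hj (Nat.not_lt_zero _)
      · intro i hi; exact absurd hi (Nat.not_lt_zero _)
      · intro i hi; exact absurd hi (by simp)
      · intro i hi; exact absurd hi (by simp)
      · intro i hi; exact absurd hi (Nat.not_lt_zero _)
    · intro x
      rw [union_empty, mem_iso, hn0]
      constructor
      · intro h; exact Or.inl h
      · rintro (h | ⟨i, hi, _⟩)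
        · exact h
        · exact absurd hi (Nat.not_lt_zero _)
  | add P v hP hv hn hb ih =>
    have h1 : iso src dst ∪ insert v P = insert v (iso src dst ∪ P) := by
      rw [union_insert]
    rw [h1]
    refine TH599.P5.MAIN.step parts tbl_ok hM hp ih ?_ ?_
    · rw [mem_union, mem_iso]
      rintro (h | h)
      · exact h hn
      · exact hv h
    · rw [← h1, bdy_iso]
      exact hb

/-- **Explored sets are small.** -/
theorem Expl.small (hM : MinCx src dst) (hp : ¬ TH499.TF.PM src dst) {P : Finset V}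
    (h : Expl src dst P) : P.card ≤ 14 ∧ ((bdy src dst P).card ≤ 4 → P.card ≤ 10) ∧
      ((bdy src dst P).card ≤ 3 → P.card ≤ 4) ∧ ((bdy src dst P).card ≤ 2 → P.card ≤ 2) := by
  obtain ⟨q, hq, φ, hE, hx⟩ := h.good hM (fun h => hp (pm_of_pet h))
  have hs := List.all_eq_true.mp tbl_small q hq
  unfold MS.small at hs
  simp only [Bool.and_eq_true, Bool.or_eq_true, Nat.ble_eq, decide_eq_true_eq] at hs
  obtain ⟨s1, s2, s3, s4, s5⟩ := hs
  have hnis := h.nis
  have hPim : P = (range q.n).image φ := by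
    ext x
    rw [mem_image]
    constructor
    · intro hxP
      rcases (hx x).mp (mem_union_right _ hxP) with h1 | ⟨i, hi, hi2⟩
      · exact absurd (hnis x hxP) h1
      · exact ⟨i, mem_range.mpr hi, hi2⟩
    · rintro ⟨i, hi, rfl⟩
      have h1 := (hx (φ i)).mpr (Or.inr ⟨i, mem_range.mp hi, rfl⟩)
      rcases mem_union.mp h1 with h2 | h2
      · exact absurd (hE.nis i (mem_range.mp hi)) (mem_iso.mp h2)
      · exact h2
  have hPc : P.card = q.n := by
    rw [hPim, card_image_of_injOn, card_range]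
    intro i hi j hj hij
    rw [mem_coe, mem_range] at hi hj
    exact hE.inj i j hi hj hij
  have hbc : q.rt.length ≤ (bdy src dst P).card := by
    have h1 : ((q.rt.map Prod.fst).toFinset.image φ).card = q.rt.length := by
      rw [card_image_of_injOn, List.toFinset_card_of_nodup s5, List.length_map]
      intro i hi j hj hij
      rw [mem_coe, List.mem_toFinset] at hi hj
      exact hE.inj i j (hE.rlt i hi) (hE.rlt j hj) hij
    rw [← h1]
    refine card_le_card ?_
    intro x hxm
    obtain ⟨i, hi, rfl⟩ := mem_image.mp hxm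
    rw [List.mem_toFinset] at hi
    rw [mem_bdy, hPim]
    refine ⟨mem_image_of_mem _ (mem_range.mpr (hE.rlt i hi)), ?_⟩
    obtain ⟨e, y, h2, h3, h4⟩ := hE.out i hi
    refine ⟨e, y, h2, h3, ?_⟩
    rw [mem_image]
    rintro ⟨j, hj, hj2⟩
    exact h4 j (mem_range.mp hj) hj2.symm
  rw [hPc]
  refine ⟨s1, fun h4 => ?_, fun h4 => ?_, fun h4 => ?_⟩
  · rcases s2 with s2 | s2
    · omega
    · exact s2
  · rcases s3 with s3 | s3
    · omega
    · exact s3
  · rcases s4 with s4 | s4
    · omega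
    · exact s4

/-! ### Widths -/

theorem no_tw (hM : MinCx src dst) (hp : ¬ TH499.TF.PM src dst) :
    ¬ TH499.TF.HasTD 5 src dst := by
  intro h
  exact hM.nf (flow_iff.mpr (TH499.TF.cls_nz _ src dst rfl ⟨h, hp⟩ (br_iff.mp hM.br)))

theorem no_pw (hM : MinCx src dst) (hp : ¬ TH499.TF.PM src dst) :
    ¬ Pool.Agent.TH497.PW.HasPD 6 src dst := by
  intro h
  exact hM.nf (flow_iff.mpr (cls5 h hp (br_iff.mp hM.br)))

/-! ### Odd vertices -/

theorem pm_of_contr (h : TH362.Multi.ContractsToPetersen src dst) : TH499.TF.PM src dst := by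
  classical
  obtain ⟨B, b1, b2, b3, _⟩ := h
  refine ⟨fun i => univ.filter (fun x => x ∈ B i), ?_, ?_, ?_⟩
  · intro i A hA hAn hAne
    obtain ⟨a, ha⟩ := hAn
    obtain ⟨c, hc, hcA⟩ : ∃ c ∈ univ.filter (fun x => x ∈ B i), c ∉ A := by
      by_contra hcon
      push Not at hcon
      exact hAne (subset_antisymm hA hcon)
    have haB : a ∈ B i := (mem_filter.mp (hA ha)).2
    have hcB : c ∈ B i := (mem_filter.mp hc).2
    have hl := (b1 i).2 a haB c hcB
    by_contra hno
    push Not at hno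
    have key : ∀ z, TH362.Multi.Linked src dst {e | src e ∈ B i ∧ dst e ∈ B i} a z → z ∈ A := by
      intro z hz
      induction hz with
      | refl => exact ha
      | tail _ hst ih =>
        obtain ⟨e, he, he2⟩ := hst
        by_contra hcon
        rcases he2 with ⟨h1, h2⟩ | ⟨h1, h2⟩
        · exact hno e _ _ ih (mem_filter.mpr ⟨mem_univ _, h2 ▸ he.2⟩) hcon (Or.inl ⟨h1, h2⟩)
        · exact hno e _ _ ih (mem_filter.mpr ⟨mem_univ _, h1 ▸ he.1⟩) hcon (Or.inr ⟨h1, h2⟩)
    exact hcA (key c hl)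
  · intro i j hij
    rw [disjoint_left]
    intro x hx hx2
    exact Set.disjoint_left.mp (b2 i j hij) (mem_filter.mp hx).2 (mem_filter.mp hx2).2
  · intro i j hij
    obtain ⟨e, he, _⟩ := b3 i j hij
    rcases he with ⟨h1, h2⟩ | ⟨h1, h2⟩
    · exact ⟨e, src e, dst e, mem_filter.mpr ⟨mem_univ _, h1⟩, mem_filter.mpr ⟨mem_univ _, h2⟩,
        Or.inl ⟨rfl, rfl⟩⟩
    · exact ⟨e, dst e, src e, mem_filter.mpr ⟨mem_univ _, h2⟩, mem_filter.mpr ⟨mem_univ _, h1⟩,
        Or.inr ⟨rfl, rfl⟩⟩

theorem odd17 (hM : MinCx src dst) (hp : ¬ TH499.TF.PM src dst) :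
    17 ≤ (TH362.TF.odd src dst univ).card := by
  by_contra hlt
  have h1 : TH362.TF.N1 src dst univ := by
    intro x hx
    refine br_iff.mp hM.br (univ.filter (fun v => x v = true)) ?_
    rw [← hx]
    congr 1
    ext e
    unfold TH362.TF.cut
    rw [TH499.TF.mem_dlt, mem_filter]
    simp only [mem_filter, mem_univ, true_and]
    cases x (src e) <;> cases x (dst e) <;> simp
  rcases TH362.TF.main16 src dst univ h1 (by omega) with h | h
  · obtain ⟨φ, p1, p2⟩ := h
    refine hM.nf (flow_iff.mpr ⟨φ, fun e => p1 e (mem_univ _), fun x => ?_⟩)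
    exact p2 x
  · exact hp (pm_of_contr (TH362.TF.contracts src dst h1 h))

end Pool.Agent.Q124.MS
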