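import Pool.Agent.Q124.MS.Core

set_option autoImplicit false

/-! # The properties of minimal counterexamples in plain terms -/

namespace Pool.Agent.Q124.MS.Plain

open Finset

/-- the edge `e` joins `x` and `y` -/
def Joins {V E : Type} (s t : E → V) (e : E) (x y : V) : Prop :=
  (s e = x ∧ t e = y) ∨ (s e = y ∧ t e = x)

/-- `x` and `y` are different and joined by an edge -/
def Adj {V E : Type} (s t : E → V) (x y : V) : Prop := x ≠ y ∧ ∃ e, Joins s t e x y

/-- `x` has a neighbour -/
def Proper {V E : Type} (s t : E → V) (x : V) : Prop := ∃ y, Adj s t x y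

/-- the edges with exactly one end in `Z` -/
def cut {V E : Type} [DecidableEq V] [Fintype E] (s t : E → V) (Z : Finset V) : Finset E :=
  univ.filter (fun e => ¬ (s e ∈ Z ↔ t e ∈ Z))

/-- there is no isthmus: no set of vertices is left by exactly one edge -/
def NoIsthmus {V E : Type} [DecidableEq V] [Fintype E] (s t : E → V) : Prop :=
  ∀ Z : Finset V, (cut s t Z).card ≠ 1

/-- `T` is a tree with a bag for each node: every edge has both ends in a bag, and the bags with a
given vertex form a subtree -/
def IsTreeDecomposition {V E ι : Type} (s t : E → V) (T : SimpleGraph ι)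
    (bag : ι → Finset V) : Prop :=
  T.IsTree ∧ (∀ e, ∃ i, s e ∈ bag i ∧ t e ∈ bag i) ∧
    ∀ (i j : ι) (p : T.Walk i j), p.IsPath → ∀ k ∈ p.support, ∀ v, v ∈ bag i → v ∈ bag j →
      v ∈ bag k

/-- a path decomposition: every edge has both ends in one of the bags `X 0, X 1, ...`, and the bags
with a given vertex are consecutive -/
def IsPathDecomposition {V E : Type} [DecidableEq V] (s t : E → V) (X : ℕ → Finset V) : Prop :=
  (∀ e, ∃ i, s e ∈ X i ∧ t e ∈ X i) ∧ ∀ i j k, i ≤ j → j ≤ k → X i ∩ X k ⊆ X j

/-- the listed vertices with a neighbour which is not listed -/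
def border {V E : Type} (s t : E → V) (l : List V) : Set V := {x | x ∈ l ∧ ∃ y, y ∉ l ∧ Adj s t x y}

/-- `X`, `Y`, `S` is a partition of the set of vertices and no edge joins `X` and `Y` -/
structure Separation {V E : Type} (s t : E → V) (X Y S : Finset V) : Prop where
  xy : Disjoint X Y
  xs : Disjoint X S
  ys : Disjoint Y S
  all : ∀ v, v ∈ X ∨ v ∈ Y ∨ v ∈ S
  sep : ∀ e x y, x ∈ X → y ∈ Y → ¬ Joins s t e x y

/-- the properties of the critical minors -/
structure Critical {V E : Type} [Fintype V] [DecidableEq V] [Fintype E] [DecidableEq E]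
    (s t : E → V) : Prop where
  /-- there is no isthmus -/
  noIsthmus : NoIsthmus s t
  /-- no parallel edges, apart from loops -/
  noPar : ∀ e e' x y, x ≠ y → Joins s t e x y → Joins s t e' x y → e = e'
  /-- no triangles -/
  noTri : ∀ x y z, Adj s t x y → Adj s t y z → ¬ Adj s t z x
  /-- no quadrilaterals -/
  noQuad : ∀ x y z w, x ≠ z → y ≠ w → Adj s t x y → Adj s t y z → Adj s t z w → ¬ Adj s t w x
  /-- edge cuts have at least three edges -/
  cut3 : ∀ (Z : Finset V) (x y : V), x ∈ Z → y ∉ Z → Proper s t x → Proper s t y →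
    3 ≤ (cut s t Z).card
  /-- edge cuts with at least two vertices on each side have at least four edges -/
  cut4 : ∀ (Z : Finset V) (x x' y y' : V), x ∈ Z → x' ∈ Z → x ≠ x' → y ∉ Z → y' ∉ Z → y ≠ y' →
    Proper s t x → Proper s t x' → Proper s t y → Proper s t y' → 4 ≤ (cut s t Z).card
  /-- at least three vertices are needed to separate two vertices -/
  sep3 : ∀ (X Y S : Finset V), Separation s t X Y S → ∀ x y, x ∈ X → y ∈ Y → Proper s t x →
    Proper s t y → 3 ≤ S.card
  /-- at least four vertices are needed to separate two vertices from two vertices -/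
  sep4 : ∀ (X Y S : Finset V), Separation s t X Y S → ∀ x x' y y', x ∈ X → x' ∈ X → x ≠ x' →
    y ∈ Y → y' ∈ Y → y ≠ y' → Proper s t x → Proper s t x' → Proper s t y → Proper s t y' →
    4 ≤ S.card
  /-- at least eighteen vertices have odd degree -/
  odd : 18 ≤ (univ.filter (fun v => Odd (∑ e : E, ((if s e = v then 1 else 0) +
    (if t e = v then 1 else 0))))).card
  /-- the treewidth is at least five: each tree decomposition has a bag with six vertices -/
  treewidth : ∀ (ι : Type) [Fintype ι] (T : SimpleGraph ι) (bag : ι → Finset V),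
    IsTreeDecomposition s t T bag → ∃ i, 6 ≤ (bag i).card
  /-- the pathwidth is at least six: each path decomposition has a bag with seven vertices -/
  pathwidth : ∀ X : ℕ → Finset V, IsPathDecomposition s t X → ∃ i, 7 ≤ (X i).card
  /-- explorations: if different vertices are listed one by one, and at each time at most five of
  the listed vertices have neighbours which are not yet listed, then at most fourteen vertices are
  listed; there are at most ten, four, two vertices if at the end there are at most four, three, two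
  vertices with neighbours which are not listed -/
  explore : ∀ l : List V, l.Nodup → (∀ x ∈ l, Proper s t x) →
    (∀ k ≤ l.length, (border s t (l.take k)).ncard ≤ 5) →
    l.length ≤ 14 ∧ ((border s t l).ncard ≤ 4 → l.length ≤ 10) ∧
      ((border s t l).ncard ≤ 3 → l.length ≤ 4) ∧ ((border s t l).ncard ≤ 2 → l.length ≤ 2)

/-! ### Translations -/

section
variable {V E : Type} [Fintype V] [DecidableEq V] [Fintype E] [DecidableEq E] {s t : E → V}

theorem proper_iff {x : V} : Proper s t x ↔ TH676.T4.Nis s t x := by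
  constructor
  · rintro ⟨y, hne, e, h⟩
    exact (Q124.MS.nis_of_JV h hne).1
  · rintro ⟨e, hne, h⟩
    rcases h with h | h
    · exact ⟨t e, fun h1 => hne (h.trans h1), e, Or.inl ⟨h, rfl⟩⟩
    · exact ⟨s e, fun h1 => hne (h1.symm.trans h.symm), e, Or.inr ⟨rfl, h⟩⟩

theorem odd_eq : univ.filter (fun v => Odd (∑ e : E, ((if s e = v then 1 else 0) +
    (if t e = v then 1 else 0)))) = TH362.TF.odd s t univ := by
  unfold TH362.TF.odd TH362.TF.deg
  rfl

theorem odd_even : Even (TH362.TF.odd s t univ).card := by
  have h1 : Even (∑ v, TH362.TF.deg s t univ v) := by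
    unfold TH362.TF.deg
    rw [sum_comm]
    refine Finset.even_sum _ fun e _ => ?_
    rw [sum_add_distrib]
    simp
  have h2 : (∑ v, TH362.TF.deg s t univ v) % 2 = (TH362.TF.odd s t univ).card % 2 := by
    rw [sum_nat_mod]
    congr 1
    unfold TH362.TF.odd
    rw [card_filter]
    refine sum_congr rfl fun v _ => ?_
    by_cases h : Odd (TH362.TF.deg s t univ v)
    · rw [if_pos h]; exact Nat.odd_iff.mp h
    · rw [if_neg h]
      exact Nat.even_iff.mp (Nat.not_odd_iff_even.mp h)
  rw [Nat.even_iff] at h1 ⊢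
  omega

theorem list_expl (hM : TH462.T4.MinCx s t) (l : List V) (hl : l.Nodup)
    (hp : ∀ x ∈ l, Proper s t x) (hb : ∀ k ≤ l.length, (border s t (l.take k)).ncard ≤ 5) :
    ∀ k ≤ l.length, Q124.MS.Expl s t (l.take k).toFinset := by
  have _ := hM
  intro k
  induction k with
  | zero =>
    intro _
    simp only [List.take_zero, List.toFinset_nil]
    exact Q124.MS.Expl.nil
  | succ k ih =>
    intro hk
    have hkl : k < l.length := by omega
    have h1 := ih (by omega)
    have ht : (l.take (k + 1)).toFinset = insert (l[k]) (l.take k).toFinset := by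
      rw [List.take_succ_eq_append_getElem hkl]
      ext z
      simp only [List.mem_toFinset, List.mem_append, List.mem_singleton, mem_insert]
      exact or_comm
    have hb' := hb (k + 1) hk
    rw [ht]
    refine Q124.MS.Expl.add _ _ h1 ?_ (proper_iff.mp (hp _ (List.getElem_mem hkl))) ?_
    · intro hmem
      rw [List.mem_toFinset] at hmem
      obtain ⟨i, hi, hi2⟩ := List.getElem_of_mem hmem
      rw [List.getElem_take] at hi2
      have := (List.Nodup.getElem_inj_iff hl).mp hi2
      rw [List.length_take] at hi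
      omega
    · rw [← ht]
      refine le_trans (le_of_eq ?_) hb'
      rw [← Set.ncard_coe_finset]
      congr 1
      ext x
      rw [mem_coe, Q124.MS.mem_bdy]
      unfold border Adj
      simp only [Set.mem_ofPred_eq, List.mem_toFinset]
      constructor
      · rintro ⟨h2, e, y, hj, h3, h4⟩
        exact ⟨h2, y, h4, h3.symm, e, hj⟩
      · rintro ⟨h2, y, h4, h3, e, hj⟩
        exact ⟨h2, e, y, hj, h3.symm, h4⟩

theorem border_eq (l : List V) : (border s t l).ncard = (Q124.MS.bdy s t l.toFinset).card := by
  rw [← Set.ncard_coe_finset]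
  congr 1
  ext x
  rw [mem_coe, Q124.MS.mem_bdy]
  unfold border Adj
  simp only [Set.mem_ofPred_eq, List.mem_toFinset]
  constructor
  · rintro ⟨h2, y, h4, h3, e, hj⟩
    exact ⟨h2, e, y, hj, h3.symm, h4⟩
  · rintro ⟨h2, e, y, hj, h3, h4⟩
    exact ⟨h2, y, h4, h3.symm, e, hj⟩

theorem part_of {X Y S : Finset V} (h : Separation s t X Y S) : Q124.MS.Part s t X Y S :=
  ⟨h.xy, h.xs, h.ys, h.all, fun e => ⟨fun h1 => h.sep e _ _ h1.1 h1.2 (Or.inl ⟨rfl, rfl⟩),
    fun h1 => h.sep e _ _ h1.2 h1.1 (Or.inr ⟨rfl, rfl⟩)⟩⟩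

theorem critical_of (hM : TH462.T4.MinCx s t) (hp : ¬ TH499.TF.PM s t) : Critical s t where
  noIsthmus := Q124.MS.br_iff.mp hM.br
  noPar := fun e e' x y hxy h h' => TH169.P5.smp V E s t hM e e' x y hxy h h'
  noTri := fun x y z h1 h2 h3 => TH169.P5.tri V E s t hM x y z h1.1 h3.1.symm h2.1 h1.2 h2.2 h3.2
  noQuad := fun x y z w hxz hyw h1 h2 h3 h4 =>
    TH169.P5.quad V E s t hM x y z w h1.1 hxz h4.1.symm h2.1 hyw h3.1 h1.2 h2.2 h3.2 h4.2
  cut3 := fun Z x y hx hy nx ny => TH676.T4.cut3 hM hx hy (proper_iff.mp nx) (proper_iff.mp ny)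
  cut4 := fun Z x x' y y' hx hx' hxx hy hy' hyy nx nx' ny ny' =>
    TH676.T4.cut4 hM hx hx' hxx hy hy' hyy (proper_iff.mp nx) (proper_iff.mp nx')
      (proper_iff.mp ny) (proper_iff.mp ny')
  sep3 := fun X Y S hP x y hx hy nx ny => by
    by_contra hlt
    exact Q124.MS.sep2 hM (part_of hP) (by omega) hx hy (proper_iff.mp nx) (proper_iff.mp ny)
  sep4 := fun X Y S hP x x' y y' hx hx' hxx hy hy' hyy nx nx' ny ny' => by
    by_contra hlt
    exact Q124.MS.sep3 hM (part_of hP) (by omega) hx hx' hxx hy hy' hyy (proper_iff.mp nx)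
      (proper_iff.mp nx') (proper_iff.mp ny) (proper_iff.mp ny')
  odd := by
    rw [odd_eq]
    have h1 := Q124.MS.odd17 hM hp
    have h2 := odd_even (s := s) (t := t)
    rw [Nat.even_iff] at h2
    omega
  treewidth := fun ι _ T bag hT => by
    by_contra hcon
    push Not at hcon
    exact Q124.MS.no_tw hM hp (TH499.TF.HasTD.of_tree hT.1 hT.2.2 hT.2.1
      (fun i => Nat.lt_succ_iff.mp (hcon i)))
  pathwidth := fun X hX => by
    by_contra hcon
    push Not at hcon
    exact Q124.MS.no_pw hM hp ⟨X, hX.1, hX.2, fun i => Nat.lt_succ_iff.mp (hcon i)⟩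
  explore := fun l hl hpr hb => by
    have h1 := list_expl hM l hl hpr hb l.length le_rfl
    rw [List.take_length] at h1
    have h2 := h1.small hM hp
    rw [List.toFinset_card_of_nodup hl, ← border_eq] at h2
    exact h2

end

end Pool.Agent.Q124.MS.Plain
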