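import Pool.Agent.TH497.BF.Fin
import Pool.Agent.TH676.T4.Pet

set_option autoImplicit false
set_option linter.unusedSectionVars false

/-! # Vertex separations of order at most three of a minimal counterexample, for flows with values
in a set with many symmetries -/

namespace Pool.Agent.Q124.MSA

open Finset Pool.Agent.TH676.A
open Pool.Agent.TH676.T4 (ConnSet JoinsSet JV)
open Pool.Agent.TH497.BF (Facts)

variable {V E : Type} [Fintype V] [DecidableEq V] [Fintype E] [DecidableEq E]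
variable {Γ : Type} [AddCommGroup Γ] {T : Γ → Prop}
variable {src dst : E → V}

/-- the boundary of the values of `f` on the edges `F` -/
def bdF (src dst : E → V) (F : Finset E) (f : E → Γ) (x : V) : Γ :=
  ∑ e ∈ F, ((if src e = x then f e else 0) + (if dst e = x then f e else 0))

/-- the edges in `K` that cross `Y` form a cut if `Y` does not separate the attachments -/
theorem crs_side {K : Finset E} {X S Y : Finset V} {r : V}
    (hKX : ∀ e ∈ K, (src e ∈ X ∨ src e ∈ S) ∧ (dst e ∈ X ∨ dst e ∈ S))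
    (hXK : ∀ e, (src e ∈ X ∨ dst e ∈ X) → e ∈ K)
    (hS : ∀ s ∈ S, (s ∈ Y ↔ r ∈ Y)) :
    crs src dst Y ∩ K = crs src dst (X.filter (fun x => ¬ (x ∈ Y ↔ r ∈ Y))) := by
  ext e
  rw [mem_inter, mem_crs, mem_crs]
  simp only [mem_filter]
  have hs := hS (src e)
  have hd := hS (dst e)
  constructor
  · rintro ⟨h1, h2⟩
    have := hKX e h2
    tauto
  · intro h1
    have h2 : e ∈ K := hXK e (by tauto)
    have := hKX e h2
    exact ⟨by tauto, h2⟩

theorem bdF_univ (f : E → Γ) (x : V) : bdF src dst univ f x = bd src dst f x := rfl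

theorem bd_split {K K' : Finset E} (hd : Disjoint K K') (hu : K ∪ K' = univ) (f g : E → Γ)
    (x : V) : bd src dst (fun e => if e ∈ K then f e else g e) x
      = bdF src dst K f x + bdF src dst K' g x := by
  rw [← bdF_univ, ← hu]
  unfold bdF
  rw [sum_union hd]
  congr 1
  · refine sum_congr rfl fun e he => ?_
    simp only [if_pos he]
  · refine sum_congr rfl fun e he => ?_
    simp only [if_neg (disjoint_right.mp hd he)]

theorem sum_bdF (hΓ : Ex2 Γ) (K : Finset E) (f : E → Γ) : ∑ x, bdF src dst K f x = 0 := by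
  unfold bdF
  rw [sum_comm]
  refine sum_eq_zero fun e _ => ?_
  rw [sum_add_distrib]
  simp only [sum_ite_eq, mem_univ, if_true]
  exact hΓ.self _

/-- the flow on one side of a separation of order at most one -/
theorem half1 (hF : Facts T) (h : MinCx T src dst) {K : Finset E} {X S : Finset V}
    (hKX : ∀ e ∈ K, (src e ∈ X ∨ src e ∈ S) ∧ (dst e ∈ X ∨ dst e ∈ S))
    (hXK : ∀ e, (src e ∈ X ∨ dst e ∈ X) → e ∈ K) (hS : S.card ≤ 1)
    (hp : ∃ e, src e ≠ dst e ∧ e ∉ K) :
    ∃ f : E → Γ, (∀ e ∈ K, T (f e)) ∧ ∀ x, bdF src dst K f x = 0 := by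
  obtain ⟨e0, he0, he0K⟩ := hp
  obtain ⟨f, hf0, hf1, hf2⟩ := h.crit (univ \ K) ∅ (disjoint_empty_right _)
    ⟨e0, by simp [he0K], he0⟩ (by
      intro Y _
      have h1 : crs src dst Y \ (univ \ K) = crs src dst Y ∩ K := by
        ext e; simp
      rw [h1]
      obtain ⟨r, hr⟩ : ∃ r : V, ∀ s ∈ S, (s ∈ Y ↔ r ∈ Y) := by
        rcases S.eq_empty_or_nonempty with h2 | ⟨u, hu⟩
        · exact ⟨src e0, by simp [h2]⟩
        · refine ⟨u, fun s hs => ?_⟩
          rw [card_le_one.mp hS s hs u hu]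
      rw [crs_side hKX hXK hr]
      have := h.br (X.filter (fun x => ¬ (x ∈ Y ↔ r ∈ Y))) (disjoint_empty_right _)
      rwa [sdiff_empty] at this)
  refine ⟨f, fun e he => hf2 e (by simp [he]) (notMem_empty _), fun x => ?_⟩
  rw [← hf0 x]
  unfold bdF bd
  refine sum_subset (subset_univ _) fun e _ he => ?_
  rw [hf1 e (by simp [he])]
  simp

theorem JV.adj_cases {e : E} {x y : V} (h : JV src dst e x y) (z : V) (t : Γ) (hxy : x ≠ y) :
    ((if src e = z then t else 0) + (if dst e = z then t else 0) : Γ)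
      = if z = x ∨ z = y then t else 0 := by
  rcases h with ⟨a, b⟩ | ⟨a, b⟩
  · rw [a, b]
    by_cases h1 : x = z
    · have h2 : y ≠ z := fun h => hxy (h1.trans h.symm)
      rw [if_pos h1, if_neg h2, add_zero, if_pos (Or.inl h1.symm)]
    · by_cases h2 : y = z
      · rw [if_neg h1, if_pos h2, zero_add, if_pos (Or.inr h2.symm)]
      · rw [if_neg h1, if_neg h2, add_zero, if_neg]
        rintro (h3 | h3)
        · exact h1 h3.symm
        · exact h2 h3.symm
  · rw [a, b]
    by_cases h1 : x = z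
    · have h2 : y ≠ z := fun h => hxy (h1.trans h.symm)
      rw [if_pos h1, if_neg h2, zero_add, if_pos (Or.inl h1.symm)]
    · by_cases h2 : y = z
      · rw [if_neg h1, if_pos h2, add_zero, if_pos (Or.inr h2.symm)]
      · rw [if_neg h1, if_neg h2, add_zero, if_neg]
        rintro (h3 | h3)
        · exact h1 h3.symm
        · exact h2 h3.symm

/-- a connected set is not separated if no inner edge crosses -/
theorem same_side {A Y : Finset V} (hA : ConnSet src dst A)
    (h : ∀ e, src e ∈ A → dst e ∈ A → e ∉ crs src dst Y) {x y : V} (hx : x ∈ A) (hy : y ∈ A) :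
    (x ∈ Y ↔ y ∈ Y) := by
  by_contra hc
  have key : ∀ x y, x ∈ A → y ∈ A → x ∈ Y → y ∉ Y → False := by
    intro x y hx hy h1 h2
    obtain ⟨e, he⟩ := hA.2 (A.filter (· ∈ Y)) (filter_subset _ _) ⟨x, by simp [hx, h1]⟩ (by
      intro h3
      have : y ∈ A.filter (· ∈ Y) := by rw [h3]; exact hy
      exact h2 (mem_filter.mp this).2)
    rcases he with ⟨h3, h4⟩ | ⟨h3, h4⟩
    · simp only [mem_filter, mem_sdiff] at h3 h4
      refine h e h3.1 h4.1 ?_
      rw [mem_crs]
      tauto
    · simp only [mem_filter, mem_sdiff] at h3 h4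
      refine h e h3.1 h4.1 ?_
      rw [mem_crs]
      tauto
  by_cases h1 : x ∈ Y
  · exact key x y hx hy h1 (fun h2 => hc ⟨fun _ => h2, fun _ => h1⟩)
  · exact key y x hy hx (by by_contra h2; exact hc ⟨fun h3 => absurd h3 h1, fun h3 => absurd h3 h2⟩) h1

/-- the flow on one side of a separation; the other side is contracted to a star -/
theorem half (hF : Facts T) (h : MinCx T src dst) {K : Finset E} {X A Z S : Finset V} (ζ a : V → E)
    (hKX : ∀ e ∈ K, (src e ∈ X ∨ src e ∈ S) ∧ (dst e ∈ X ∨ dst e ∈ S))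
    (hXK : ∀ e, (src e ∈ X ∨ dst e ∈ X) → e ∈ K)
    (hAX : A ⊆ X) (hA : ConnSet src dst A) (hZ : ConnSet src dst Z)
    (hZX : Disjoint Z X) (hZS : Disjoint Z S) (hXS : Disjoint X S)
    (hζ : ∀ s ∈ S, ∃ z ∈ Z, JV src dst (ζ s) s z)
    (ha : ∀ s ∈ S, ∃ x ∈ A, JV src dst (a s) s x) (hS : 2 ≤ S.card)
    (hp : ∃ e, src e ≠ dst e ∧ e ∉ K ∧ ∀ s ∈ S, e ≠ ζ s) :
    ∃ f : E → Γ, (∀ e ∈ K, T (f e)) ∧ (∀ s ∈ S, T (f (ζ s))) ∧
      (∀ x, x ∉ S → bdF src dst K f x = 0) ∧ (∀ s ∈ S, bdF src dst K f s = f (ζ s)) := by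
  classical
  have hΓ := hF.alg.two
  obtain ⟨z0, hz0⟩ := hZ.1
  set C : Finset E := univ.filter (fun e => src e ∈ Z ∧ dst e ∈ Z) with hC
  set D : Finset E := univ.filter (fun e => e ∉ K ∧ (∀ s ∈ S, e ≠ ζ s) ∧
    ¬ (src e ∈ Z ∧ dst e ∈ Z)) with hD
  have mC : ∀ e, e ∈ C ↔ (src e ∈ Z ∧ dst e ∈ Z) := by intro e; simp [hC]
  have mD : ∀ e, e ∈ D ↔ (e ∉ K ∧ (∀ s ∈ S, e ≠ ζ s) ∧ ¬ (src e ∈ Z ∧ dst e ∈ Z)) := by
    intro e; rw [hD, mem_filter]; simp
  have hζC : ∀ s ∈ S, ζ s ∉ C := by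
    intro s hs hc
    obtain ⟨z, hz, hj⟩ := hζ s hs
    rw [mC] at hc
    have h1 : s ∈ Z := by
      rcases hj with ⟨h1, _⟩ | ⟨_, h1⟩
      · rw [← h1]; exact hc.1
      · rw [← h1]; exact hc.2
    exact disjoint_left.mp hZS h1 hs
  have hζK : ∀ s ∈ S, ζ s ∉ K := by
    intro s hs hc
    obtain ⟨z, hz, hj⟩ := hζ s hs
    have h1 := hKX _ hc
    have h2 : z ∈ X ∨ z ∈ S := by
      rcases hj with ⟨_, h2⟩ | ⟨h2, _⟩
      · rw [← h2]; exact h1.2
      · rw [← h2]; exact h1.1
    rcases h2 with h2 | h2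
    · exact disjoint_left.mp hZX hz h2
    · exact disjoint_left.mp hZS hz h2
  have hKC : ∀ e ∈ K, e ∉ C := by
    intro e he hc
    rw [mC] at hc
    rcases (hKX e he).1 with h2 | h2
    · exact disjoint_left.mp hZX hc.1 h2
    · exact disjoint_left.mp hZS hc.1 h2
  have hdis : Disjoint D C := by
    rw [disjoint_left]
    intro e h1 h2
    rw [mD] at h1
    rw [mC] at h2
    exact h1.2.2 h2
  have hprop : ∃ e ∈ D ∪ C, src e ≠ dst e := by
    obtain ⟨e, h1, h2, h3⟩ := hp
    refine ⟨e, ?_, h1⟩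
    rw [mem_union, mD, mC]
    tauto
  -- two attachments are joined by one edge only to the same vertex
  have hζinj : ∀ s ∈ S, ∀ s' ∈ S, ζ s = ζ s' → s = s' := by
    intro s hs s' hs' heq
    obtain ⟨z, hz, hj⟩ := hζ s hs
    obtain ⟨z', hz', hj'⟩ := hζ s' hs'
    rw [heq] at hj
    rcases hj with ⟨h1, h2⟩ | ⟨h1, h2⟩ <;> rcases hj' with ⟨h3, h4⟩ | ⟨h3, h4⟩
    · exact h1.symm.trans h3
    · exfalso
      exact disjoint_left.mp hZS hz' (h3.symm.trans h1 ▸ hs)
    · exfalso
      exact disjoint_left.mp hZS hz (h1.symm.trans h3 ▸ hs')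
    · exact h2.symm.trans h4
  have hBr : Br src dst D C := by
    intro Y hY hcard
    have hsameZ : ∀ z ∈ Z, (z ∈ Y ↔ z0 ∈ Y) := fun z hz =>
      same_side hZ (fun e h1 h2 h3 => disjoint_left.mp hY h3 ((mC e).mpr ⟨h1, h2⟩)) hz hz0
    have hmem : ∀ e, e ∈ crs src dst Y \ D ↔ (e ∈ crs src dst Y ∧ (e ∈ K ∨ ∃ s ∈ S, e = ζ s)) := by
      intro e
      rw [mem_sdiff, mD]
      constructor
      · rintro ⟨h1, h2⟩
        refine ⟨h1, ?_⟩
        by_contra h3
        push Not at h3
        exact h2 ⟨h3.1, h3.2, fun h4 => disjoint_left.mp hY h1 ((mC e).mpr h4)⟩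
      · rintro ⟨h1, h2⟩
        refine ⟨h1, ?_⟩
        rintro ⟨h3, h4, _⟩
        rcases h2 with h2 | ⟨s, hs, h2⟩
        · exact h3 h2
        · exact h4 s hs h2
    have hζY : ∀ s ∈ S, (ζ s ∈ crs src dst Y ↔ ¬ (s ∈ Y ↔ z0 ∈ Y)) := by
      intro s hs
      obtain ⟨z, hz, hj⟩ := hζ s hs
      have h1 := hsameZ z hz
      rw [mem_crs]
      rcases hj with ⟨h2, h3⟩ | ⟨h2, h3⟩
      · rw [h2, h3]; tauto
      · rw [h2, h3]; tauto
    by_cases hall : ∀ s ∈ S, (s ∈ Y ↔ z0 ∈ Y)
    · have h1 : crs src dst Y \ D = crs src dst Y ∩ K := by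
        ext e
        rw [hmem, mem_inter]
        constructor
        · rintro ⟨h1, h2 | ⟨s, hs, rfl⟩⟩
          · exact ⟨h1, h2⟩
          · exact absurd (hall s hs) ((hζY s hs).mp h1)
        · rintro ⟨h1, h2⟩
          exact ⟨h1, Or.inl h2⟩
      rw [h1, crs_side hKX hXK hall] at hcard
      have := h.br (X.filter (fun x => ¬ (x ∈ Y ↔ z0 ∈ Y))) (disjoint_empty_right _)
      rw [sdiff_empty] at this
      exact this hcard
    · push Not at hall
      obtain ⟨s1, hs1, hop⟩ := hall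
      have hop' : ¬ (s1 ∈ Y ↔ z0 ∈ Y) := by tauto
      have hm1 : ζ s1 ∈ crs src dst Y \ D := (hmem _).mpr ⟨(hζY s1 hs1).mpr hop', Or.inr ⟨s1, hs1, rfl⟩⟩
      obtain ⟨e1, he1⟩ := card_eq_one.mp hcard
      have hall1 : ∀ e ∈ crs src dst Y \ D, e = ζ s1 := by
        intro e he
        rw [he1, mem_singleton] at he hm1
        rw [he, hm1]
      have hKno : ∀ e ∈ K, e ∉ crs src dst Y := by
        intro e he hc
        have := hall1 e ((hmem e).mpr ⟨hc, Or.inl he⟩)
        exact hζK s1 hs1 (this ▸ he)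
      obtain ⟨s2, hs2, hne⟩ : ∃ s2 ∈ S, s2 ≠ s1 := by
        by_contra hcon
        push Not at hcon
        have : S ⊆ {s1} := fun s hs => by rw [mem_singleton]; exact hcon s hs
        have := card_le_card this
        rw [card_singleton] at this
        omega
      have hs2n : (s2 ∈ Y ↔ z0 ∈ Y) := by
        by_contra h2
        have := hall1 _ ((hmem _).mpr ⟨(hζY s2 hs2).mpr h2, Or.inr ⟨s2, hs2, rfl⟩⟩)
        exact hne (hζinj s2 hs2 s1 hs1 this)
      obtain ⟨x1, hx1, hj1⟩ := ha s1 hs1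
      obtain ⟨x2, hx2, hj2⟩ := ha s2 hs2
      have hAA : (x1 ∈ Y ↔ x2 ∈ Y) :=
        same_side hA (fun e h1 _ => hKno e (hXK e (Or.inl (hAX h1)))) hx1 hx2
      have hend : ∀ s x, x ∈ A → JV src dst (a s) s x → (s ∈ Y ↔ x ∈ Y) := by
        intro s x hx hj
        have h1 : a s ∈ K := by
          apply hXK
          rcases hj with ⟨_, h2⟩ | ⟨h2, _⟩
          · right; rw [h2]; exact hAX hx
          · left; rw [h2]; exact hAX hx
        have h2 := hKno _ h1
        rw [mem_crs, not_not] at h2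
        rcases hj with ⟨h3, h4⟩ | ⟨h3, h4⟩
        · rw [h3, h4] at h2; exact h2
        · rw [h3, h4] at h2; exact h2.symm
      have e1 := hend s1 x1 hx1 hj1
      have e2 := hend s2 x2 hx2 hj2
      exact hop' (e1.trans (hAA.trans (e2.symm.trans hs2n)))
  obtain ⟨f, hf0, hf1, hf2⟩ := h.crit D C hdis hprop hBr
  have hKn : ∀ e ∈ K, T (f e) := fun e he => hf2 e (fun h1 => ((mD e).mp h1).1 he) (hKC e he)
  refine ⟨f, hKn, ?_, ?_, ?_⟩
  · intro s hs
    exact hf2 _ (fun h1 => ((mD _).mp h1).2.1 s hs rfl) (hζC s hs)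
  · intro x hxS
    by_cases hxX : x ∈ X
    · rw [← hf0 x]
      unfold bdF bd
      refine sum_subset (subset_univ _) fun e _ he => ?_
      have h1 : src e ≠ x := fun h1 => he (hXK e (Or.inl (h1 ▸ hxX)))
      have h2 : dst e ≠ x := fun h1 => he (hXK e (Or.inr (h1 ▸ hxX)))
      rw [if_neg h1, if_neg h2, add_zero]
    · unfold bdF
      refine sum_eq_zero fun e he => ?_
      have h0 := hKX e he
      have h1 : src e ≠ x := fun h1 => by
        rw [h1] at h0; tauto
      have h2 : dst e ≠ x := fun h1 => by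
        rw [h1] at h0; tauto
      rw [if_neg h1, if_neg h2, add_zero]
  · intro s hs
    have h0 := hf0 s
    have hsplit : bd src dst f s = bdF src dst K f s + f (ζ s) := by
      rw [← bdF_univ]
      have hu : (univ : Finset E) = K ∪ (univ \ K) := by
        rw [union_sdiff_of_subset (subset_univ _)]
      unfold bdF
      rw [hu, sum_union disjoint_sdiff]
      congr 1
      rw [sum_eq_single (ζ s)]
      · obtain ⟨z, hz, hj⟩ := hζ s hs
        have hne : s ≠ z := fun h1 => disjoint_left.mp hZS hz (h1 ▸ hs)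
        rw [JV.adj_cases hj s (f (ζ s)) hne, if_pos (Or.inl rfl)]
      · intro e he hne
        rw [mem_sdiff] at he
        by_cases hD' : e ∈ D
        · rw [hf1 e hD']; simp
        · rw [mD] at hD'
          by_cases hCC : src e ∈ Z ∧ dst e ∈ Z
          · have h1 : src e ≠ s := fun h1 => disjoint_left.mp hZS hCC.1 (h1 ▸ hs)
            have h2 : dst e ≠ s := fun h1 => disjoint_left.mp hZS hCC.2 (h1 ▸ hs)
            rw [if_neg h1, if_neg h2, add_zero]
          · have : ∃ s' ∈ S, e = ζ s' := by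
              by_contra hcon
              push Not at hcon
              exact hD' ⟨he.2, hcon, hCC⟩
            obtain ⟨s', hs', rfl⟩ := this
            obtain ⟨z, hz, hj⟩ := hζ s' hs'
            have hne2 : s' ≠ z := fun h1 => disjoint_left.mp hZS hz (h1 ▸ hs')
            rw [JV.adj_cases hj s _ hne2, if_neg]
            rintro (h1 | h1)
            · exact hne (by rw [h1])
            · exact disjoint_left.mp hZS hz (h1 ▸ hs)
      · intro h1
        exact absurd (mem_sdiff.mpr ⟨mem_univ _, hζK s hs⟩) h1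
    rw [hsplit] at h0
    have h1 := congrArg (· + f (ζ s)) h0
    simp only [add_assoc, hΓ.self, add_zero, zero_add] at h1
    exact h1

theorem bdF_map (φ : Γ →+ Γ) (K : Finset E) (f : E → Γ) (x : V) :
    bdF src dst K (fun e => φ (f e)) x = φ (bdF src dst K f x) := by
  unfold bdF
  rw [map_sum]
  refine sum_congr rfl fun e _ => ?_
  rw [map_add]
  congr 1
  · by_cases h : src e = x <;> simp [h]
  · by_cases h : dst e = x <;> simp [h]

/-- matching of the values at the attachments -/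
theorem matchS (hF : Facts T) {S : Finset V} (h2 : 2 ≤ S.card) (h3 : S.card ≤ 3) (α β : V → Γ)
    (hα : ∀ s ∈ S, T (α s)) (hβ : ∀ s ∈ S, T (β s)) (sα : ∑ s ∈ S, α s = 0)
    (sβ : ∑ s ∈ S, β s = 0) :
    ∃ φ : Γ →+ Γ, (∀ x, T x → T (φ x)) ∧ ∀ s ∈ S, φ (β s) = α s := by
  have hΓ := hF.alg.two
  have oth : ∀ a : Γ, T a → ∃ b : Γ, T b ∧ T (a + b) := by
    intro a ha
    obtain ⟨p, h1, h4, _⟩ := hF.s4 a a ha ha
    exact ⟨p, h1, by rw [add_comm]; exact h4⟩
  have cases : S.card = 2 ∨ S.card = 3 := by omega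
  rcases cases with hc | hc
  · obtain ⟨u, v, huv, rfl⟩ := card_eq_two.mp hc
    rw [sum_pair huv] at sα sβ
    have a1 : α v = α u := (hΓ.eq sα).symm
    have b1 : β v = β u := (hΓ.eq sβ).symm
    have au := hα u (by simp)
    have bu := hβ u (by simp)
    obtain ⟨c, hc1, hc2⟩ := oth _ au
    obtain ⟨d, hd1, hd2⟩ := oth _ bu
    obtain ⟨φ, L1, L2, L3⟩ := hF.alg.hom (β u) d (α u) c bu hd1 hd2 au hc1 hc2
    refine ⟨φ, L1, ?_⟩
    intro x hx
    simp only [mem_insert, mem_singleton] at hx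
    rcases hx with rfl | rfl
    · exact L2
    · rw [b1, a1]; exact L2
  · obtain ⟨u, v, w, huv, huw, hvw, rfl⟩ := card_eq_three.mp hc
    rw [sum_insert (by simp [huv, huw]), sum_pair hvw, ← add_assoc] at sα sβ
    have a1 : α u + α v = α w := hΓ.eq sα
    have b1 : β u + β v = β w := hΓ.eq sβ
    obtain ⟨φ, L1, L2, L3⟩ := hF.alg.hom (β u) (β v) (α u) (α v)
      (hβ u (by simp)) (hβ v (by simp)) (by rw [b1]; exact hβ w (by simp))
      (hα u (by simp)) (hα v (by simp)) (by rw [a1]; exact hα w (by simp))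
    refine ⟨φ, L1, ?_⟩
    intro x hx
    simp only [mem_insert, mem_singleton] at hx
    rcases hx with rfl | rfl | rfl
    · exact L2
    · exact L3
    · rw [← b1, map_add, ← a1, L2, L3]

/-- a partition of the vertices in two sides and the separating set -/
structure Part (src dst : E → V) (X Y S : Finset V) : Prop where
  xy : Disjoint X Y
  xs : Disjoint X S
  ys : Disjoint Y S
  all : ∀ v, v ∈ X ∨ v ∈ Y ∨ v ∈ S
  sep : ∀ e, ¬ (src e ∈ X ∧ dst e ∈ Y) ∧ ¬ (src e ∈ Y ∧ dst e ∈ X)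

theorem Part.symm {X Y S : Finset V} (h : Part src dst X Y S) : Part src dst Y X S :=
  ⟨h.xy.symm, h.ys, h.xs, fun v => by have := h.all v; tauto, fun e => (h.sep e).symm⟩

/-- the edges of the side of `X`, with the edges inside `S` if `b` is true -/
def kk (src dst : E → V) (X S : Finset V) (b : Bool) : Finset E :=
  univ.filter (fun e => src e ∈ X ∨ dst e ∈ X ∨ (b = true ∧ src e ∈ S ∧ dst e ∈ S))

theorem mem_kk {X S : Finset V} {b : Bool} {e : E} : e ∈ kk src dst X S b ↔
    (src e ∈ X ∨ dst e ∈ X ∨ (b = true ∧ src e ∈ S ∧ dst e ∈ S)) := by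
  unfold kk; rw [mem_filter]; simp

theorem Part.kX {X Y S : Finset V} (h : Part src dst X Y S) (b : Bool) :
    ∀ e ∈ kk src dst X S b, (src e ∈ X ∨ src e ∈ S) ∧ (dst e ∈ X ∨ dst e ∈ S) := by
  intro e he
  rw [mem_kk] at he
  have h1 := h.sep e
  have h2 := h.all (src e)
  have h3 := h.all (dst e)
  tauto

theorem kXK {X S : Finset V} (b : Bool) :
    ∀ e, (src e ∈ X ∨ dst e ∈ X) → e ∈ kk src dst X S b := by
  intro e he
  rw [mem_kk]
  tauto

theorem Part.dj {X Y S : Finset V} (h : Part src dst X Y S) :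
    Disjoint (kk src dst X S true) (kk src dst Y S false) := by
  rw [disjoint_left]
  intro e h1 h2
  have h3 := h.kX true e h1
  have h4 := h.symm.kX false e h2
  rw [mem_kk] at h1 h2
  have a1 : src e ∈ X → src e ∉ Y := fun h0 => disjoint_left.mp h.xy h0
  have a2 : dst e ∈ X → dst e ∉ Y := fun h0 => disjoint_left.mp h.xy h0
  have a3 : src e ∈ Y → src e ∉ S := fun h0 => disjoint_left.mp h.ys h0
  have a4 : dst e ∈ Y → dst e ∉ S := fun h0 => disjoint_left.mp h.ys h0
  simp only [Bool.false_eq_true, false_and, or_false] at h2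
  tauto

theorem Part.un {X Y S : Finset V} (h : Part src dst X Y S) :
    kk src dst X S true ∪ kk src dst Y S false = univ := by
  ext e
  rw [mem_union, mem_kk, mem_kk]
  have h2 := h.all (src e)
  have h3 := h.all (dst e)
  simp only [Bool.false_eq_true, false_and, or_false, true_and, mem_univ, iff_true]
  tauto

/-- no separation of order at most one -/
theorem sep1 (hF : Facts T) (h : MinCx T src dst) {X Y S : Finset V} (hP : Part src dst X Y S) (hS : S.card ≤ 1)
    {x y : V} (hx : x ∈ X) (hy : y ∈ Y) (nx : Nis src dst x) (ny : Nis src dst y) : False := by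
  have pe : ∀ {X Y : Finset V} {b b' : Bool}, Part src dst X Y S → ∀ {y : V}, y ∈ Y →
      Nis src dst y → Disjoint (kk src dst X S b) (kk src dst Y S b') →
      ∃ e, src e ≠ dst e ∧ e ∉ kk src dst X S b := by
    intro X Y b b' hP y hy ny hd
    obtain ⟨e, h1, h2⟩ := ny
    refine ⟨e, h1, fun h3 => disjoint_left.mp hd h3 (kXK b' e ?_)⟩
    rcases h2 with h2 | h2
    · left; rw [h2]; exact hy
    · right; rw [h2]; exact hy
  obtain ⟨f1, a1, a2⟩ := half1 hF h (hP.kX true) (kXK true) hS (pe hP hy ny hP.dj)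
  obtain ⟨f2, b1, b2⟩ := half1 hF h (hP.symm.kX false) (kXK false) hS (pe hP.symm hx nx hP.dj.symm)
  refine h.nf ⟨fun e => if e ∈ kk src dst X S true then f1 e else f2 e, fun v => ?_,
    fun e he => absurd he (notMem_empty _), fun e _ _ => ?_⟩
  · rw [bd_split hP.dj hP.un, a2, b2, add_zero]
  · change T (if e ∈ kk src dst X S true then f1 e else f2 e)
    by_cases he : e ∈ kk src dst X S true
    · rw [if_pos he]; exact a1 e he
    · rw [if_neg he]
      have : e ∈ kk src dst X S true ∪ kk src dst Y S false := by rw [hP.un]; exact mem_univ _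
      exact b1 e ((mem_union.mp this).resolve_left he)

/-- the separation with connected attached parts on both sides -/
theorem sep23 (hF : Facts T) (h : MinCx T src dst) {X Y S : Finset V} (hP : Part src dst X Y S)
    (h2 : 2 ≤ S.card) (h3 : S.card ≤ 3) {A B : Finset V} (hAX : A ⊆ X) (hBY : B ⊆ Y)
    (hA : ConnSet src dst A) (hB : ConnSet src dst B) (a b : V → E)
    (ha : ∀ s ∈ S, ∃ x ∈ A, JV src dst (a s) s x) (hb : ∀ s ∈ S, ∃ x ∈ B, JV src dst (b s) s x)
    (p1 : ∃ e, src e ≠ dst e ∧ e ∉ kk src dst X S true ∧ ∀ s ∈ S, e ≠ b s)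
    (p2 : ∃ e, src e ≠ dst e ∧ e ∉ kk src dst Y S false ∧ ∀ s ∈ S, e ≠ a s) : False := by
  have dBX : Disjoint B X := hP.xy.symm.mono_left hBY
  have dBS : Disjoint B S := hP.ys.mono_left hBY
  have dAY : Disjoint A Y := hP.xy.mono_left hAX
  have dAS : Disjoint A S := hP.xs.mono_left hAX
  obtain ⟨f1, u1, u2, u3, u4⟩ := half hF h b a (hP.kX true) (kXK true) hAX hA hB dBX dBS hP.xs hb ha
    h2 p1
  obtain ⟨f2, w1, w2, w3, w4⟩ := half hF h a b (hP.symm.kX false) (kXK false) hBY hB hA dAY dAS hP.ys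
    ha hb h2 p2
  have tot : ∀ (K : Finset E) (f : E → Γ) (ζ : V → E), (∀ x, x ∉ S → bdF src dst K f x = 0) →
      (∀ s ∈ S, bdF src dst K f s = f (ζ s)) → ∑ s ∈ S, f (ζ s) = 0 := by
    intro K f ζ h1 h4
    rw [← sum_bdF (src := src) (dst := dst) hF.alg.two K f, ← sum_subset (subset_univ S) (fun x _ hx => h1 x hx)]
    exact sum_congr rfl fun s hs => (h4 s hs).symm
  obtain ⟨φ, hφ, hm⟩ := matchS hF h2 h3 (fun s => f1 (b s)) (fun s => f2 (a s)) u2 w2
    (tot _ f1 b u3 u4) (tot _ f2 a w3 w4)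
  refine h.nf ⟨fun e => if e ∈ kk src dst X S true then f1 e else φ (f2 e), fun v => ?_,
    fun e he => absurd he (notMem_empty _), fun e _ _ => ?_⟩
  · rw [bd_split hP.dj hP.un, bdF_map]
    by_cases hv : v ∈ S
    · rw [u4 v hv, w4 v hv, hm v hv]
      exact hF.alg.two _
    · rw [u3 v hv, w3 v hv, map_zero, add_zero]
  · change T (if e ∈ kk src dst X S true then f1 e else φ (f2 e))
    by_cases he : e ∈ kk src dst X S true
    · rw [if_pos he]; exact u1 e he
    · rw [if_neg he]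
      have : e ∈ kk src dst X S true ∪ kk src dst Y S false := by rw [hP.un]; exact mem_univ _
      exact hφ _ (w1 e ((mem_union.mp this).resolve_left he))

/-- a part of `X` which is connected and attached to all separating vertices -/
theorem attach {X Y S : Finset V} (hP : Part src dst X Y S)
    (hno : ∀ X' Y' S' : Finset V, Part src dst X' Y' S' → S'.card < S.card → ∀ x ∈ X', ∀ y ∈ Y',
      Nis src dst x → Nis src dst y → False)
    {x y : V} (hx : x ∈ X) (hy : y ∈ Y) (nx : Nis src dst x) (ny : Nis src dst y) :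
    ∃ A ⊆ X, ConnSet src dst A ∧ ∃ a : V → E, ∀ s ∈ S, ∃ z ∈ A, JV src dst (a s) s z := by
  classical
  -- closed parts of `X`
  set Cl : Finset (Finset V) := X.powerset.filter (fun A => (∃ z ∈ A, Nis src dst z) ∧
    (∀ z ∈ A, Nis src dst z) ∧
    ∀ e, ¬ (src e ∈ A ∧ dst e ∈ X ∧ dst e ∉ A) ∧ ¬ (dst e ∈ A ∧ src e ∈ X ∧ src e ∉ A)) with hCl
  have mCl : ∀ A, A ∈ Cl ↔ A ⊆ X ∧ (∃ z ∈ A, Nis src dst z) ∧ (∀ z ∈ A, Nis src dst z) ∧
      ∀ e, ¬ (src e ∈ A ∧ dst e ∈ X ∧ dst e ∉ A) ∧ ¬ (dst e ∈ A ∧ src e ∈ X ∧ src e ∉ A) := by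
    intro A
    rw [hCl, mem_filter, mem_powerset]
  have hne : Cl.Nonempty := by
    refine ⟨X.filter (fun z => Nis src dst z), ?_⟩
    rw [mCl]
    refine ⟨filter_subset _ _, ⟨x, mem_filter.mpr ⟨hx, nx⟩, nx⟩, fun z hz => (mem_filter.mp hz).2,
      fun e => ⟨?_, ?_⟩⟩
    · rintro ⟨h1, h2, h3⟩
      rw [mem_filter] at h1 h3
      by_cases he : src e = dst e
      · exact h3 (he ▸ h1)
      · exact h3 ⟨h2, e, he, Or.inr rfl⟩
    · rintro ⟨h1, h2, h3⟩
      rw [mem_filter] at h1 h3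
      by_cases he : src e = dst e
      · exact h3 (he ▸ h1)
      · exact h3 ⟨h2, e, he, Or.inl rfl⟩
  obtain ⟨A, hA, hmin⟩ := exists_min_image Cl card hne
  obtain ⟨hAX, ⟨z0, hz0, nz0⟩, hAn, hAc⟩ := (mCl A).mp hA
  have hconn : ConnSet src dst A := by
    refine ⟨⟨z0, hz0⟩, fun A' hA' hne' hneq => ?_⟩
    by_contra hno'
    push Not at hno'
    have hin : A' ∈ Cl := by
      rw [mCl]
      obtain ⟨z1, hz1⟩ := hne'
      refine ⟨hA'.trans hAX, ⟨z1, hz1, hAn z1 (hA' hz1)⟩, fun z hz => hAn z (hA' hz), fun e => ?_⟩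
      have h1 := hAc e
      have h2 := hno' e
      unfold JoinsSet at h2
      simp only [mem_sdiff] at h2
      have h3 := @hA' (src e)
      have h4 := @hA' (dst e)
      tauto
    have h1 := hmin A' hin
    exact hneq (eq_of_subset_of_card_le hA' h1)
  refine ⟨A, hAX, hconn, ?_⟩
  have hatt : ∀ s, s ∈ S → ∃ e, ∃ z ∈ A, JV src dst e s z := by
    intro s hs
    by_contra hcon
    push Not at hcon
    have hP' : Part src dst A (univ \ (A ∪ S.erase s)) (S.erase s) := by
      refine ⟨?_, ?_, ?_, ?_, ?_⟩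
      · rw [disjoint_left]
        intro v h1 h2
        rw [mem_sdiff] at h2
        exact h2.2 (mem_union_left _ h1)
      · exact (hP.xs.mono_left hAX).mono_right (erase_subset _ _)
      · rw [disjoint_left]
        intro v h1 h2
        rw [mem_sdiff] at h1
        exact h1.2 (mem_union_right _ h2)
      · intro v
        by_cases h1 : v ∈ A
        · exact Or.inl h1
        · by_cases h2 : v ∈ S.erase s
          · exact Or.inr (Or.inr h2)
          · refine Or.inr (Or.inl (mem_sdiff.mpr ⟨mem_univ _, fun h3 => ?_⟩))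
            rcases mem_union.mp h3 with h3 | h3
            · exact h1 h3
            · exact h2 h3
      · intro e
        have key : ∀ v w, v ∈ A → w ∉ A → w ∉ S.erase s → JV src dst e v w → False := by
          intro v w hv hw hw2 hj
          rcases hP.all w with h1 | h1 | h1
          · rcases hj with ⟨h2, h3⟩ | ⟨h2, h3⟩
            · exact (hAc e).1 ⟨h2 ▸ hv, h3 ▸ h1, h3 ▸ hw⟩
            · exact (hAc e).2 ⟨h3 ▸ hv, h2 ▸ h1, h2 ▸ hw⟩
          · rcases hj with ⟨h2, h3⟩ | ⟨h2, h3⟩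
            · exact (hP.sep e).1 ⟨h2 ▸ hAX hv, h3 ▸ h1⟩
            · exact (hP.sep e).2 ⟨h2 ▸ h1, h3 ▸ hAX hv⟩
          · by_cases hws : w = s
            · subst hws
              exact hcon e v hv (by
                rcases hj with ⟨h2, h3⟩ | ⟨h2, h3⟩
                · exact Or.inr ⟨h2, h3⟩
                · exact Or.inl ⟨h2, h3⟩)
            · exact hw2 (mem_erase.mpr ⟨hws, h1⟩)
        constructor
        · rintro ⟨h1, h2⟩
          rw [mem_sdiff, mem_union, not_or] at h2
          exact key _ _ h1 h2.2.1 h2.2.2 (Or.inl ⟨rfl, rfl⟩)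
        · rintro ⟨h1, h2⟩
          rw [mem_sdiff, mem_union, not_or] at h1
          exact key _ _ h2 h1.2.1 h1.2.2 (Or.inr ⟨rfl, rfl⟩)
    refine hno _ _ _ hP' (by rw [card_erase_of_mem hs]; have := card_pos.mpr ⟨s, hs⟩; omega)
      z0 hz0 y ?_ nz0 ny
    rw [mem_sdiff, mem_union, not_or]
    exact ⟨mem_univ _, fun h1 => disjoint_left.mp hP.xy (hAX h1) hy,
      fun h1 => disjoint_left.mp hP.ys hy (mem_of_mem_erase h1)⟩
  haveI : Nonempty E := ⟨nz0.choose⟩
  choose! a ha using hatt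
  exact ⟨a, ha⟩

/-- a proper edge at `y` that is none of at most two others -/
theorem more2 (hF : Facts T) (h : MinCx T src dst) {S : Finset V} (hS : S.card ≤ 2) (b : V → E) {x y : V}
    (hxy : x ≠ y) (nx : Nis src dst x) (ny : Nis src dst y) :
    ∃ e, src e ≠ dst e ∧ (src e = y ∨ dst e = y) ∧ ∀ s ∈ S, e ≠ b s := by
  have h1 : 3 ≤ (crs src dst {y}).card :=
    cut3 hF.alg h (x := y) (y := x) (mem_singleton_self _) (by simpa using hxy) ny nx
  have h2 : (S.image b).card ≤ 2 := card_image_le.trans hS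
  obtain ⟨e, he, hne⟩ : ∃ e ∈ crs src dst {y}, e ∉ S.image b := by
    by_contra hcon
    push Not at hcon
    have := card_le_card (show crs src dst {y} ⊆ S.image b from hcon)
    omega
  rw [mem_crs] at he
  simp only [mem_singleton] at he
  refine ⟨e, fun h3 => he (by rw [h3]), by tauto, fun s hs h3 => hne (h3 ▸ mem_image_of_mem b hs)⟩

/-- no separation of order at most two -/
theorem sep2 (hF : Facts T) (h : MinCx T src dst) {X Y S : Finset V} (hP : Part src dst X Y S) (hS : S.card ≤ 2)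
    {x y : V} (hx : x ∈ X) (hy : y ∈ Y) (nx : Nis src dst x) (ny : Nis src dst y) : False := by
  by_cases h1 : S.card ≤ 1
  · exact sep1 hF h hP h1 hx hy nx ny
  have h2 : S.card = 2 := by omega
  have hno : ∀ X' Y' S' : Finset V, Part src dst X' Y' S' → S'.card < S.card → ∀ x ∈ X', ∀ y ∈ Y',
      Nis src dst x → Nis src dst y → False := fun X' Y' S' hP' hc x' hx' y' hy' nx' ny' =>
    sep1 hF h hP' (by omega) hx' hy' nx' ny'
  obtain ⟨A, hAX, hA, a, ha⟩ := attach hP hno hx hy nx ny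
  obtain ⟨B, hBY, hB, b, hb⟩ := attach hP.symm hno hy hx ny nx
  have hxy : x ≠ y := fun he => disjoint_left.mp hP.xy hx (he ▸ hy)
  refine sep23 hF h hP (by omega) (by omega) hAX hBY hA hB a b ha hb ?_ ?_
  · obtain ⟨e, e1, e2, e3⟩ := more2 hF h hS b hxy nx ny
    refine ⟨e, e1, fun h3 => disjoint_left.mp hP.dj h3 (kXK false e ?_), e3⟩
    rcases e2 with h4 | h4
    · left; rw [h4]; exact hy
    · right; rw [h4]; exact hy
  · obtain ⟨e, e1, e2, e3⟩ := more2 hF h hS a hxy.symm ny nx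
    refine ⟨e, e1, fun h3 => disjoint_right.mp hP.dj h3 (kXK true e ?_), e3⟩
    rcases e2 with h4 | h4
    · left; rw [h4]; exact hx
    · right; rw [h4]; exact hx

/-- among the edges at two vertices of `Y` there is one different from the edges `b s` -/
theorem more3 (hF : Facts T) (h : MinCx T src dst) {Y S B : Finset V} (hYS : Disjoint Y S)
    (hS : S.card ≤ 3) (b : V → E)
    (hb : ∀ s ∈ S, ∃ x ∈ B, JV src dst (b s) s x) {x y y' : V}
    (hxy : x ≠ y) (hxy' : x ≠ y') (hyy : y ≠ y') (hy : y ∈ Y) (hy' : y' ∈ Y)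
    (nx : Nis src dst x) (ny : Nis src dst y) (ny' : Nis src dst y') :
    ∃ e, src e ≠ dst e ∧ (src e ∈ Y ∨ dst e ∈ Y) ∧ ∀ s ∈ S, e ≠ b s := by
  have h1 : 3 ≤ (crs src dst {y}).card :=
    cut3 hF.alg h (x := y) (y := x) (mem_singleton_self _) (by simpa using hxy) ny nx
  have h1' : 3 ≤ (crs src dst {y'}).card :=
    cut3 hF.alg h (x := y') (y := x) (mem_singleton_self _) (by simpa using hxy') ny' nx
  have h2 : (S.image b).card ≤ 3 := card_image_le.trans hS
  have fin : ∀ w ∈ Y, ∀ e ∈ crs src dst {w}, e ∉ S.image b →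
      ∃ e, src e ≠ dst e ∧ (src e ∈ Y ∨ dst e ∈ Y) ∧ ∀ s ∈ S, e ≠ b s := by
    intro w hw e he hne
    rw [mem_crs] at he
    simp only [mem_singleton] at he
    refine ⟨e, fun h3 => he (by rw [h3]), ?_, fun s hs h3 => hne (h3 ▸ mem_image_of_mem b hs)⟩
    by_cases h3 : src e = w
    · left; rw [h3]; exact hw
    · right
      have : dst e = w := by tauto
      rw [this]; exact hw
  by_contra hcon
  have s1 : crs src dst {y} ⊆ S.image b := by
    intro e he
    by_contra hne
    exact hcon (fin y hy e he hne)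
  have s2 : crs src dst {y'} ⊆ S.image b := by
    intro e he
    by_contra hne
    exact hcon (fin y' hy' e he hne)
  have e1 : crs src dst {y} = S.image b := eq_of_subset_of_card_le s1 (by omega)
  have e2 : crs src dst {y'} = S.image b := eq_of_subset_of_card_le s2 (by omega)
  obtain ⟨e, he⟩ : (crs src dst {y}).Nonempty := by rw [← card_pos]; omega
  have he' : e ∈ crs src dst {y'} := by rw [e2, ← e1]; exact he
  have he3 : e ∈ S.image b := by rw [← e1]; exact he
  obtain ⟨s, hs, rfl⟩ := mem_image.mp he3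
  obtain ⟨z, hz, hj⟩ := hb s hs
  have hsy : s ≠ y := fun h3 => disjoint_left.mp hYS hy (h3 ▸ hs)
  have hsy' : s ≠ y' := fun h3 => disjoint_left.mp hYS hy' (h3 ▸ hs)
  rw [mem_crs] at he he'
  simp only [mem_singleton] at he he'
  rcases hj with ⟨h3, h4⟩ | ⟨h3, h4⟩
  · rw [h3, h4] at he he'
    have : z = y := by tauto
    have : z = y' := by tauto
    exact hyy (by rw [← ‹z = y›, ‹z = y'›])
  · rw [h3, h4] at he he'
    have : z = y := by tauto
    have : z = y' := by tauto
    exact hyy (by rw [← ‹z = y›, ‹z = y'›])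

/-- a separation of order three has a side with one vertex -/
theorem sep3 (hF : Facts T) (h : MinCx T src dst) {X Y S : Finset V} (hP : Part src dst X Y S) (hS : S.card ≤ 3)
    {x x' y y' : V} (hx : x ∈ X) (hx' : x' ∈ X) (hxx : x ≠ x') (hy : y ∈ Y) (hy' : y' ∈ Y)
    (hyy : y ≠ y') (nx : Nis src dst x) (nx' : Nis src dst x') (ny : Nis src dst y)
    (ny' : Nis src dst y') : False := by
  by_cases h1 : S.card ≤ 2
  · exact sep2 hF h hP h1 hx hy nx ny
  have h2 : S.card = 3 := by omega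
  have hno : ∀ X' Y' S' : Finset V, Part src dst X' Y' S' → S'.card < S.card → ∀ x ∈ X', ∀ y ∈ Y',
      Nis src dst x → Nis src dst y → False := fun X' Y' S' hP' hc x' hx' y' hy' nx' ny' =>
    sep2 hF h hP' (by omega) hx' hy' nx' ny'
  obtain ⟨A, hAX, hA, a, ha⟩ := attach hP hno hx hy nx ny
  obtain ⟨B, hBY, hB, b, hb⟩ := attach hP.symm hno hy hx ny nx
  have hne : ∀ u ∈ X, ∀ v ∈ Y, u ≠ v := fun u hu v hv he => disjoint_left.mp hP.xy hu (he ▸ hv)
  refine sep23 hF h hP (by omega) (by omega) hAX hBY hA hB a b ha hb ?_ ?_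
  · obtain ⟨e, e1, e2, e3⟩ := more3 hF h hP.ys hS b hb (hne x hx y hy) (hne x hx y' hy') hyy hy
      hy' nx ny ny'
    exact ⟨e, e1, fun h3 => disjoint_left.mp hP.dj h3 (kXK false e e2), e3⟩
  · obtain ⟨e, e1, e2, e3⟩ := more3 hF h hP.xs hS a ha (hne x hx y hy).symm
      (hne x' hx' y hy).symm hxx hx hx' ny nx nx'
    exact ⟨e, e1, fun h3 => disjoint_right.mp hP.dj h3 (kXK true e e2), e3⟩

end Pool.Agent.Q124.MSA
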